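import Pool.Agent.Helper37_CAP.Stmts

/-!
# CAP, module CBF: bound for the set `E6`
-/

set_option autoImplicit false

open Finset

namespace Pool.Agent.CAP.H69

/-- the arithmetic progression condition for fixed `s, e, b` -/
def G6 (t : ℕ × ℕ × ℕ) (n : ℕ) : Prop :=
  ∃ i : ℕ, 1 ≤ i ∧ n = (t.1 + t.2.1 * t.2.2 - 2) * (1 + t.2.1 * i) + 1

theorem two_mul_le {s e b : ℕ} (hs : 1 ≤ s) (he : 2 ≤ e) (hb : 1 ≤ b) :
    e * b ≤ 2 * (s + e * b - 2) := by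
  have h1 : 2 ≤ e * b := by nlinarith
  omega

theorem i_le {s e b i n X : ℕ} (hs : 1 ≤ s) (he : 2 ≤ e) (hb : 1 ≤ b)
    (hn : n = (s + e * b - 2) * (1 + e * i) + 1) (hX : n ≤ X) : i * (e ^ 2 * b) ≤ 2 * X := by
  have h1 := two_mul_le hs he hb
  set s' := s + e * b - 2 with hs'
  have h2 : s' * (e * i) ≤ X := by
    have h3 : s' * (e * i) ≤ s' * (1 + e * i) := Nat.mul_le_mul_left _ (by omega)
    omega
  calc i * (e ^ 2 * b) = (e * b) * (e * i) := by ring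
    _ ≤ (2 * s') * (e * i) := Nat.mul_le_mul_right _ h1
    _ = 2 * (s' * (e * i)) := by ring
    _ ≤ 2 * X := Nat.mul_le_mul_left _ h2

theorem cnt_G6 {s e b X : ℕ} (hs : 1 ≤ s) (he : 2 ≤ e) (hb : 1 ≤ b) :
    (cnt (G6 (s, e, b)) X : ℝ) ≤ 2 * X * (((e : ℝ) ^ 2)⁻¹ * (b : ℝ)⁻¹) := by
  classical
  have hpos : 0 < e ^ 2 * b := by positivity
  have h1 : cnt (G6 (s, e, b)) X ≤ 2 * X / (e ^ 2 * b) := by
    unfold cnt
    have hsub : (Finset.Icc 1 X).filter (G6 (s, e, b)) ⊆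
        (Finset.Icc 1 (2 * X / (e ^ 2 * b))).image
          (fun i => (s + e * b - 2) * (1 + e * i) + 1) := by
      intro n hn
      rw [Finset.mem_filter, Finset.mem_Icc] at hn
      obtain ⟨⟨_, hnX⟩, i, hi, hni⟩ := hn
      rw [Finset.mem_image]
      refine ⟨i, ?_, hni.symm⟩
      rw [Finset.mem_Icc]
      exact ⟨hi, (Nat.le_div_iff_mul_le hpos).2 (i_le hs he hb hni hnX)⟩
    calc ((Finset.Icc 1 X).filter (G6 (s, e, b))).card
        ≤ ((Finset.Icc 1 (2 * X / (e ^ 2 * b))).image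
          (fun i => (s + e * b - 2) * (1 + e * i) + 1)).card := Finset.card_le_card hsub
      _ ≤ (Finset.Icc 1 (2 * X / (e ^ 2 * b))).card := Finset.card_image_le
      _ = 2 * X / (e ^ 2 * b) := by rw [Nat.card_Icc, Nat.add_sub_cancel]
  have h2 : ((2 * X / (e ^ 2 * b) : ℕ) : ℝ) ≤ ((2 * X : ℕ) : ℝ) / ((e ^ 2 * b : ℕ) : ℝ) :=
    Nat.cast_div_le
  have h3 : (cnt (G6 (s, e, b)) X : ℝ) ≤ ((2 * X / (e ^ 2 * b) : ℕ) : ℝ) := by exact_mod_cast h1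
  refine h3.trans (h2.trans (le_of_eq ?_))
  push_cast
  rw [div_eq_mul_inv, mul_inv]

/-- **Module CBF** -/
theorem cbf (hCNT : CNT) : CBF := by
  intro z X hz hX
  have hz0 : (0 : ℝ) < z := by positivity
  set I : Finset (ℕ × ℕ × ℕ) := Finset.Icc 1 z ×ˢ (Finset.Ioc (z ^ 5) X ×ˢ Finset.Icc 1 X)
    with hI
  have hz5 : 2 ≤ z ^ 5 := by
    calc 2 ≤ 2 ^ 5 := by norm_num
      _ ≤ z ^ 5 := Nat.pow_le_pow_left hz 5
  have h1 : cnt (E6 z) X ≤ cnt (fun n => ∃ t ∈ I, G6 t n) X := by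
    apply hCNT.1
    rintro n hn1 hnX ⟨s, s', e, b, i, hs, hsz, hez, hb, hi, hss, hn⟩
    have he : 2 ≤ e := by omega
    have hs' : s' = s + e * b - 2 := by omega
    have hn' : n = (s + e * b - 2) * (1 + e * i) + 1 := by rw [← hs']; exact hn
    have hle := i_le hs he hb hn' hnX
    have hle1 : e ^ 2 * b ≤ 2 * X := le_trans (Nat.le_mul_of_pos_left _ hi) hle
    have heX : e ≤ X := by
      have : 2 * e ≤ e ^ 2 * b := by nlinarith
      omega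
    have hbX : b ≤ X := by
      have : 2 * b ≤ e ^ 2 * b := Nat.mul_le_mul_right b (by nlinarith)
      omega
    refine ⟨(s, e, b), ?_, i, hi, hn'⟩
    rw [hI]
    simp only [Finset.mem_product, Finset.mem_Icc, Finset.mem_Ioc]
    exact ⟨⟨hs, hsz⟩, ⟨hez, heX⟩, hb, hbX⟩
  have h2 : (cnt (E6 z) X : ℝ) ≤ ∑ t ∈ I, (cnt (G6 t) X : ℝ) := by
    have h3 := hCNT.2.2.1 (ℕ × ℕ × ℕ) I G6 X
    exact_mod_cast h1.trans h3
  have h3 : ∑ t ∈ I, (cnt (G6 t) X : ℝ) ≤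
      ∑ t ∈ I, 2 * X * (((t.2.1 : ℝ) ^ 2)⁻¹ * (t.2.2 : ℝ)⁻¹) := by
    apply Finset.sum_le_sum
    rintro ⟨s, e, b⟩ ht
    rw [hI] at ht
    simp only [Finset.mem_product, Finset.mem_Icc, Finset.mem_Ioc] at ht
    exact cnt_G6 ht.1.1 (by omega) ht.2.2.1
  have h4 : ∑ t ∈ I, 2 * (X : ℝ) * (((t.2.1 : ℝ) ^ 2)⁻¹ * (t.2.2 : ℝ)⁻¹) =
      z * (2 * X * ((∑ e ∈ Finset.Ioc (z ^ 5) X, ((e : ℝ) ^ 2)⁻¹) *
        ∑ b ∈ Finset.Icc 1 X, (b : ℝ)⁻¹)) := by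
    rw [hI, Finset.sum_product]
    simp only
    rw [Finset.sum_const, Nat.card_Icc, Nat.add_sub_cancel, nsmul_eq_mul]
    congr 1
    rw [Finset.sum_product, Finset.sum_mul_sum, Finset.mul_sum]
    apply Finset.sum_congr rfl
    intro e _
    rw [Finset.mul_sum]
  have h5 : ∑ e ∈ Finset.Ioc (z ^ 5) X, ((e : ℝ) ^ 2)⁻¹ ≤ ((z : ℝ) ^ 5)⁻¹ := by
    rcases le_or_gt (z ^ 5) X with h | h
    · have h6 := sum_Ioc_inv_sq_le_sub (α := ℝ) (k := z ^ 5) (n := X) (by omega) h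
      have h7 : (0 : ℝ) ≤ (X : ℝ)⁻¹ := by positivity
      push_cast at h6
      linarith
    · rw [Finset.Ioc_eq_empty (by omega), Finset.sum_empty]
      positivity
  have h6 : ∑ b ∈ Finset.Icc 1 X, (b : ℝ)⁻¹ ≤ 1 + Real.log X := by
    have h7 := harmonic_le_one_add_log X
    rw [harmonic_eq_sum_Icc] at h7
    push_cast at h7
    exact h7
  have hlog : 0 ≤ 1 + Real.log X := by
    have : 0 ≤ Real.log X := Real.log_nonneg (by exact_mod_cast hX)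
    linarith
  have h7 : (∑ e ∈ Finset.Ioc (z ^ 5) X, ((e : ℝ) ^ 2)⁻¹) * ∑ b ∈ Finset.Icc 1 X, (b : ℝ)⁻¹ ≤
      ((z : ℝ) ^ 5)⁻¹ * (1 + Real.log X) := by
    apply mul_le_mul h5 h6 _ (by positivity)
    exact Finset.sum_nonneg fun b _ => by positivity
  calc (cnt (E6 z) X : ℝ) ≤ ∑ t ∈ I, (cnt (G6 t) X : ℝ) := h2
    _ ≤ _ := h3
    _ = _ := h4
    _ ≤ z * (2 * X * (((z : ℝ) ^ 5)⁻¹ * (1 + Real.log X))) := by gcongr
    _ = 2 * X * (1 + Real.log X) / z ^ 4 := by field_simp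

end Pool.Agent.CAP.H69
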