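import Pool.Agent.Helper37_CAP.Stmts

/-!
# CAP, module SVB: the number of members of the special family
-/

set_option autoImplicit false

open Finset

namespace Pool.Agent.CAP.H69

theorem log_sq_le {m : ℕ} (hm : 1 ≤ m) :
    (1 + Real.log m) ^ 2 / (m : ℝ) ^ 2 ≤ 25 * (1 / (m : ℝ) ^ (3 / 2 : ℝ)) := by
  have hm0 : (0 : ℝ) < m := by exact_mod_cast hm
  have hm1 : (1 : ℝ) ≤ m := by exact_mod_cast hm
  have h1 : Real.log m ≤ 4 * (m : ℝ) ^ (1 / 4 : ℝ) := by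
    have := Real.log_le_rpow_div hm0.le (show (0 : ℝ) < 1 / 4 by norm_num)
    linarith
  have h2 : (1 : ℝ) ≤ (m : ℝ) ^ (1 / 4 : ℝ) := Real.one_le_rpow hm1 (by norm_num)
  have h3 : 0 ≤ Real.log m := Real.log_nonneg hm1
  have h4 : (1 + Real.log m) ^ 2 ≤ 25 * (m : ℝ) ^ (1 / 2 : ℝ) := by
    have h5 : 1 + Real.log m ≤ 5 * (m : ℝ) ^ (1 / 4 : ℝ) := by linarith
    have h6 : ((m : ℝ) ^ (1 / 4 : ℝ)) ^ 2 = (m : ℝ) ^ (1 / 2 : ℝ) := by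
      rw [← Real.rpow_natCast, ← Real.rpow_mul hm0.le]
      norm_num
    calc (1 + Real.log m) ^ 2 ≤ (5 * (m : ℝ) ^ (1 / 4 : ℝ)) ^ 2 :=
          pow_le_pow_left₀ (by linarith) h5 2
      _ = 25 * (m : ℝ) ^ (1 / 2 : ℝ) := by rw [mul_pow, h6]; norm_num
  have h7 : (m : ℝ) ^ 2 = (m : ℝ) ^ (1 / 2 : ℝ) * (m : ℝ) ^ (3 / 2 : ℝ) := by
    rw [← Real.rpow_add hm0, ← Real.rpow_natCast]
    norm_num
  have h8 : 0 < (m : ℝ) ^ (3 / 2 : ℝ) := Real.rpow_pos_of_pos hm0 _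
  have h9 : 0 < (m : ℝ) ^ (1 / 2 : ℝ) := Real.rpow_pos_of_pos hm0 _
  rw [h7, div_le_iff₀ (by positivity)]
  calc (1 + Real.log m) ^ 2 ≤ 25 * (m : ℝ) ^ (1 / 2 : ℝ) := h4
    _ = 25 * (1 / (m : ℝ) ^ (3 / 2 : ℝ)) * ((m : ℝ) ^ (1 / 2 : ℝ) * (m : ℝ) ^ (3 / 2 : ℝ)) := by
        field_simp

theorem summable_aux : Summable fun m : ℕ => 25 * (1 / (m : ℝ) ^ (3 / 2 : ℝ)) :=
  (Real.summable_one_div_nat_rpow.2 (by norm_num)).mul_left 25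

/-- **Module SVB** -/
theorem svb (hSVA : SVA) (hCNT : CNT) : SVB := by
  obtain ⟨C, hC, hS⟩ := hSVA
  set S : ℝ := ∑' m : ℕ, 25 * (1 / (m : ℝ) ^ (3 / 2 : ℝ)) with hSd
  have hS0 : 0 ≤ S := tsum_nonneg fun m => by positivity
  refine ⟨C * (S + 1), by positivity, fun z X hX hz => ?_⟩
  set F : ℕ → ℕ → Prop := fun m n => ∃ q q' : ℕ, q.Prime ∧ q'.Prime ∧ n + 1 = (m + 1) * q ∧
      n = (m - 1) * q' + 1 with hF
  have h1 : cnt (E7 z) X ≤ cnt (fun n => ∃ m ∈ Finset.Icc 2 z, F m n) X := by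
    apply hCNT.1
    rintro n _ _ ⟨m, q, q', hm, hmz, hq, hq', h1, h2⟩
    exact ⟨m, Finset.mem_Icc.2 ⟨hm, hmz⟩, q, q', hq, hq', h1, h2⟩
  have h2 : (cnt (E7 z) X : ℝ) ≤ ∑ m ∈ Finset.Icc 2 z, (cnt (F m) X : ℝ) := by
    have h3 := hCNT.2.2.1 ℕ (Finset.Icc 2 z) F X
    exact_mod_cast h1.trans h3
  have hX0 : (0 : ℝ) ≤ X / Real.log X ^ 2 := by positivity
  have h3 : ∀ m ∈ Finset.Icc 2 z, (cnt (F m) X : ℝ) ≤
      (25 * (1 / (m : ℝ) ^ (3 / 2 : ℝ))) * (C * (X / Real.log X ^ 2)) := by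
    intro m hm
    rw [Finset.mem_Icc] at hm
    have h4 : m ^ 4 ≤ X := le_trans (Nat.pow_le_pow_left hm.2 4) hz
    refine (hS m X hm.1 h4).trans ?_
    have h5 := log_sq_le (m := m) (by omega)
    calc C * (1 + Real.log m) ^ 2 / m ^ 2 * X / Real.log X ^ 2
        = ((1 + Real.log m) ^ 2 / (m : ℝ) ^ 2) * (C * (X / Real.log X ^ 2)) := by ring
      _ ≤ _ := mul_le_mul_of_nonneg_right h5 (by positivity)
  calc (cnt (E7 z) X : ℝ) ≤ ∑ m ∈ Finset.Icc 2 z, (cnt (F m) X : ℝ) := h2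
    _ ≤ ∑ m ∈ Finset.Icc 2 z, (25 * (1 / (m : ℝ) ^ (3 / 2 : ℝ))) * (C * (X / Real.log X ^ 2)) :=
        Finset.sum_le_sum h3
    _ = (∑ m ∈ Finset.Icc 2 z, 25 * (1 / (m : ℝ) ^ (3 / 2 : ℝ))) * (C * (X / Real.log X ^ 2)) := by
        rw [Finset.sum_mul]
    _ ≤ (S + 1) * (C * (X / Real.log X ^ 2)) := by
        apply mul_le_mul_of_nonneg_right _ (by positivity)
        have := summable_aux.sum_le_tsum (Finset.Icc 2 z) fun m _ => by positivity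
        linarith
    _ = C * (S + 1) * X / Real.log X ^ 2 := by ring

end Pool.Agent.CAP.H69
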